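import Pool.Agent.Helper1.KL.Stmts2
import Pool.Agent.Helper67.KL.Mod0

set_option autoImplicit false

/-!
Project KL (MP_0b9e0b_ag), module KL-14c: the reduction of all classes of good points.
-/

namespace Pool.Agent.Helper31.KL

open Pool.Agent.Helper1.KL Pool.Agent.Helper16 Pool.Agent.Helper67.KL

/-! ### Fourier inversion -/

section Fourier

variable {p n : ℕ} [Fact p.Prime]

open scoped Classical in
/-- The vectors with support in `I`. -/
noncomputable def AA (p : ℕ) [Fact p.Prime] {n : ℕ} (I : Finset (Fin n)) :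
    Finset (Fin n → ZMod p) :=
  {ρ | ∀ i ∉ I, ρ i = 0}

theorem mem_AA {I : Finset (Fin n)} {ρ : Fin n → ZMod p} :
    ρ ∈ AA p I ↔ ∀ i ∉ I, ρ i = 0 := by
  unfold AA
  rw [Finset.mem_filter_univ]

theorem mem_perp {ρ h : Fin n → ZMod p} : h ∈ perp ρ ↔ ∑ i, ρ i * h i = 0 := by
  unfold perp
  rw [Finset.mem_filter_univ]

open scoped Classical in
/-- The number of the `ρ` orthogonal to a vector whose restriction to `I` is not zero. -/
theorem card_orth {I : Finset (Fin n)} {h : Fin n → ZMod p} {i₀ : Fin n} (hi : i₀ ∈ I)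
    (hh : h i₀ ≠ 0) :
    p * ((AA p I).filter fun ρ => h ∈ perp ρ).card = (AA p I).card := by
  have h1 : ∀ c : ZMod p, ((AA p I).filter fun ρ => ∑ i, ρ i * h i = c).card =
      ((AA p I).filter fun ρ => h ∈ perp ρ).card := by
    intro c
    set g : Fin n → ZMod p := Pi.single i₀ (c / h i₀) with hg
    have hgI : ∀ i ∉ I, g i = 0 := by
      intro i hiI
      rw [hg, Pi.single_eq_of_ne]
      rintro rfl
      exact hiI hi
    have hgs : ∑ i, g i * h i = c := by
      rw [Finset.sum_eq_single i₀]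
      · rw [hg, Pi.single_eq_same, div_mul_cancel₀ _ hh]
      · intro i _ hne
        rw [hg, Pi.single_eq_of_ne hne, zero_mul]
      · intro hc
        exact absurd (Finset.mem_univ _) hc
    refine Finset.card_bij' (fun ρ _ => ρ - g) (fun ρ _ => ρ + g) ?_ ?_ ?_ ?_
    · intro ρ hρ
      rw [Finset.mem_filter, mem_AA] at hρ ⊢
      refine ⟨fun i hiI => ?_, ?_⟩
      · rw [Pi.sub_apply, hρ.1 i hiI, hgI i hiI, sub_zero]
      · rw [mem_perp]
        simp only [Pi.sub_apply, sub_mul, Finset.sum_sub_distrib]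
        rw [hρ.2, hgs, sub_self]
    · intro ρ hρ
      rw [Finset.mem_filter, mem_AA] at hρ ⊢
      refine ⟨fun i hiI => ?_, ?_⟩
      · rw [Pi.add_apply, hρ.1 i hiI, hgI i hiI, add_zero]
      · simp only [Pi.add_apply, add_mul, Finset.sum_add_distrib]
        rw [mem_perp.1 hρ.2, hgs, zero_add]
    · intro ρ _
      exact sub_add_cancel _ _
    · intro ρ _
      exact add_sub_cancel_right _ _
  have h2 : (AA p I).card = ∑ c : ZMod p, ((AA p I).filter fun ρ => ∑ i, ρ i * h i = c).card :=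
    Finset.card_eq_sum_card_fiberwise (fun _ _ => Finset.mem_coe.2 (Finset.mem_univ _))
  rw [h2, Finset.sum_congr rfl fun c _ => h1 c, Finset.sum_const, Finset.card_univ, ZMod.card,
    smul_eq_mul]

open scoped Classical in
theorem fourier {Q : Type} [AddCommGroup Q] [Module ℚ Q] (I : Finset (Fin n))
    (F : (Fin n → ZMod p) → Q) (hF : ∀ h, (∀ i ∈ I, h i = 0) → F h = F 0) :
    F 0 ∈ Submodule.span ℚ {∑ h ∈ perp (0 : Fin n → ZMod p), F h} ⊔
      ⨆ (ρ : Fin n → ZMod p) (_ : ρ ≠ 0) (_ : ∀ i ∉ I, ρ i = 0),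
        Submodule.span ℚ {∑ h ∈ perp ρ, F h} := by
  set R := Submodule.span ℚ {∑ h ∈ perp (0 : Fin n → ZMod p), F h} ⊔
      ⨆ (ρ : Fin n → ZMod p) (_ : ρ ≠ 0) (_ : ∀ i ∉ I, ρ i = 0),
        Submodule.span ℚ {∑ h ∈ perp ρ, F h} with hR
  have hp := (Fact.out : p.Prime)
  have h0 : ∑ h, F h ∈ R := by
    have h1 : perp (0 : Fin n → ZMod p) = Finset.univ := by
      ext h
      simp [mem_perp]
    rw [← h1]
    exact Submodule.mem_sup_left (Submodule.mem_span_singleton_self _)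
  have hρ : ∀ ρ ∈ AA p I, ∑ h ∈ perp ρ, F h ∈ R := by
    intro ρ hρ
    by_cases hρ0 : ρ = 0
    · rw [hρ0]
      exact Submodule.mem_sup_left (Submodule.mem_span_singleton_self _)
    · refine Submodule.mem_sup_right ?_
      refine Submodule.mem_iSup_of_mem ρ (Submodule.mem_iSup_of_mem hρ0
        (Submodule.mem_iSup_of_mem (mem_AA.1 hρ) (Submodule.mem_span_singleton_self _)))
  -- the main identity
  set c : ℕ := ((Finset.univ : Finset (Fin n → ZMod p)).filter fun h => ∀ i ∈ I, h i = 0).card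
    with hc
  have hmain : ((p : ℕ) : ℚ) • ∑ ρ ∈ AA p I, ∑ h ∈ perp ρ, F h =
      (((AA p I).card : ℕ) : ℚ) • ∑ h, F h +
        ((((p - 1) * (AA p I).card * c : ℕ)) : ℚ) • F 0 := by
    have h1 : ∑ ρ ∈ AA p I, ∑ h ∈ perp ρ, F h =
        ∑ h, (((AA p I).filter fun ρ => h ∈ perp ρ).card : ℚ) • F h := by
      have h2 : ∀ ρ : Fin n → ZMod p, ∑ h ∈ perp ρ, F h = ∑ h, if h ∈ perp ρ then F h else 0 := by
        intro ρ
        rw [Finset.sum_ite_mem, Finset.univ_inter]
      rw [Finset.sum_congr rfl fun ρ _ => h2 ρ, Finset.sum_comm]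
      refine Finset.sum_congr rfl fun h _ => ?_
      rw [← Finset.sum_filter, Finset.sum_const, ← Nat.cast_smul_eq_nsmul ℚ]
    rw [h1, Finset.smul_sum, Finset.smul_sum]
    have h3 : ((((p - 1) * (AA p I).card * c : ℕ)) : ℚ) • F 0 =
        ∑ h : Fin n → ZMod p, (if ∀ i ∈ I, h i = 0 then
          ((((p - 1) * (AA p I).card : ℕ)) : ℚ) • F h else 0) := by
      rw [← Finset.sum_filter]
      have h4 : ∀ h ∈ (Finset.univ : Finset (Fin n → ZMod p)).filter (fun h => ∀ i ∈ I, h i = 0),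
          ((((p - 1) * (AA p I).card : ℕ)) : ℚ) • F h =
            ((((p - 1) * (AA p I).card : ℕ)) : ℚ) • F 0 := by
        intro h hh
        rw [hF h (Finset.mem_filter.1 hh).2]
      rw [Finset.sum_congr rfl h4, Finset.sum_const, ← hc, ← Nat.cast_smul_eq_nsmul ℚ, smul_smul]
      congr 1
      push_cast
      ring
    rw [h3, ← Finset.sum_add_distrib]
    refine Finset.sum_congr rfl fun h _ => ?_
    by_cases hh : ∀ i ∈ I, h i = 0
    · rw [if_pos hh]
      have h5 : (AA p I).filter (fun ρ => h ∈ perp ρ) = AA p I := by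
        refine Finset.filter_true_of_mem fun ρ hρ => ?_
        rw [mem_perp]
        refine Finset.sum_eq_zero fun i _ => ?_
        by_cases hi : i ∈ I
        · rw [hh i hi, mul_zero]
        · rw [mem_AA.1 hρ i hi, zero_mul]
      rw [h5, smul_smul, ← add_smul]
      congr 1
      have h6 : ((p - 1 : ℕ) : ℚ) = (p : ℚ) - 1 := by
        rw [Nat.cast_sub hp.one_lt.le, Nat.cast_one]
      rw [Nat.cast_mul, h6]
      ring
    · rw [if_neg hh, add_zero, smul_smul]
      push Not at hh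
      obtain ⟨i, hi, hi0⟩ := hh
      rw [← card_orth hi hi0]
      push_cast
      rfl
  have hne : ((((p - 1) * (AA p I).card * c : ℕ)) : ℚ) ≠ 0 := by
    rw [Nat.cast_ne_zero]
    have h1 : 0 < p - 1 := by
      have := hp.one_lt
      omega
    have h2 : 0 < (AA p I).card := by
      rw [Finset.card_pos]
      exact ⟨0, mem_AA.2 fun _ _ => rfl⟩
    have h3 : 0 < c := by
      rw [hc, Finset.card_pos]
      exact ⟨0, by simp⟩
    positivity
  have h7 : ((((p - 1) * (AA p I).card * c : ℕ)) : ℚ) • F 0 ∈ R := by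
    have h8 : ((((p - 1) * (AA p I).card * c : ℕ)) : ℚ) • F 0 =
        ((p : ℕ) : ℚ) • ∑ ρ ∈ AA p I, ∑ h ∈ perp ρ, F h -
          (((AA p I).card : ℕ) : ℚ) • ∑ h, F h := by
      rw [hmain]
      abel
    rw [h8]
    exact sub_mem (Submodule.smul_mem _ _ (sum_mem hρ)) (Submodule.smul_mem _ _ h0)
  rwa [Submodule.smul_mem_iff _ hne] at h7

end Fourier

section

variable {k : Type} [Field k] {p : ℕ} [Fact p.Prime] [CharP k p] {n : ℕ} {b : Fin n → k} {r : ℕ}
  {I : Finset (Fin n)} {N : Type} [Field N] [Algebra (RatFunc k) N]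
  {z : Fin n ⊕ Fin n → Option N}

omit [CharP k p] in
/-- The translations by vectors which are `0` on `I`. -/
theorem tr_eq_self (hz : Good p b r I z) {h : Fin n → ZMod p} (hh : ∀ i ∈ I, h i = 0) :
    tr h z = z := by
  funext j
  rcases j with i | i
  · rfl
  · by_cases hi : i ∈ I
    · simp only [tr, hh i hi, ZMod.cast_zero, add_zero]
      exact Option.map_id'
    · simp only [tr, (good_out hz hi).2, Option.map_none]

theorem tr_tr [CharP N p] (g h : Fin n → ZMod p) (z : Fin n ⊕ Fin n → Option N) :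
    tr g (tr h z) = tr (g + h) z := by
  funext j
  rcases j with i | i
  · rfl
  · simp only [tr, Option.map_map]
    congr 1
    funext c
    simp only [Function.comp_apply, Pi.add_apply]
    rw [ZMod.cast_add (R := N) (dvd_refl p)]
    ring

omit [CharP k p] in
/-- The class of a good point. -/
theorem cl_mem (hz : Good p b r I z) :
    cl p b r z ∈ Submodule.span ℚ {SS p b r 0 z} ⊔
      ⨆ (ρ : Fin n → ZMod p) (_ : ρ ≠ 0) (_ : ∀ i ∉ I, ρ i = 0),
        Submodule.span ℚ {SS p b r ρ z} := by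
  have h0 : tr (0 : Fin n → ZMod p) z = z := tr_eq_self hz fun _ _ => rfl
  have h1 := fourier (p := p) I (fun h => cl p b r (tr h z)) (fun h hh => by
    rw [tr_eq_self hz hh, h0])
  simp only [h0] at h1
  exact h1

/-- The case of invariance. -/
theorem SS_mem_of_inv {ρ : Fin n → ZMod p}
    (h : ∀ g : Fin n → ZMod p, SS p b r ρ z = SS p b r ρ (tr g z)) :
    SS p b r ρ z ∈ Submodule.span ℚ {SS p b r 0 z} := by
  have hN : CharP N p := charP_of k N p
  have h1 : ∑ g : Fin n → ZMod p, SS p b r ρ (tr g z) =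
      ((perp ρ).card : ℚ) • SS p b r 0 z := by
    unfold SS SH
    rw [Finset.sum_comm]
    have h2 : ∀ g' ∈ perp ρ, ∑ g : Fin n → ZMod p, cl p b r (tr g' (tr g z)) =
        ∑ h ∈ perp (0 : Fin n → ZMod p), cl p b r (tr h z) := by
      intro g' _
      have h3 : perp (0 : Fin n → ZMod p) = Finset.univ := by
        ext h
        simp [mem_perp]
      rw [h3]
      have h4 : ∀ g ∈ (Finset.univ : Finset (Fin n → ZMod p)),
          cl p b r (tr g' (tr g z)) = cl p b r (tr (g' + g) z) := fun g _ => by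
        rw [tr_tr g' g z]
      rw [Finset.sum_congr rfl h4]
      exact Fintype.sum_equiv (Equiv.addLeft g') _ _ fun g => rfl
    rw [Finset.sum_congr rfl h2, Finset.sum_const, ← Nat.cast_smul_eq_nsmul ℚ]
  have h2 : ∑ g : Fin n → ZMod p, SS p b r ρ (tr g z) =
      ((Fintype.card (Fin n → ZMod p)) : ℚ) • SS p b r ρ z := by
    rw [Finset.sum_congr rfl fun g _ => (h g).symm, Finset.sum_const, Finset.card_univ,
      ← Nat.cast_smul_eq_nsmul ℚ]
  rw [h1] at h2
  have h3 : ((Fintype.card (Fin n → ZMod p) : ℕ) : ℚ) ≠ 0 :=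
    Nat.cast_ne_zero.2 Fintype.card_ne_zero
  rw [← Submodule.smul_mem_iff _ h3, ← h2]
  exact Submodule.smul_mem _ _ (Submodule.mem_span_singleton_self _)

end

variable {k : Type} [Field k] {p : ℕ} [Fact p.Prime] [CharP k p] {n : ℕ} {b : Fin n → k} {r : ℕ}

/-- KL-14c. -/
theorem modComb (hV : ModV k p b r) (hA1 : ModA1 k p b r) (hA2 : ModA2 k p b r)
    (hSc : ModSc k p b r) (hS : ModS k p b r) (hE : ModE k p b r) : ModComb k p b r := by
  intro I
  set R : Submodule ℚ (QX p b r) := GG p b r I.card ⊔ SP p b r I 0 (fun _ _ _ _ _ => True) ⊔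
    ⨆ (ρ : Fin n → ZMod p) (_ : ρ ≠ 0) (_ : ∀ i ∉ I, ρ i = 0), SP p b r I ρ (P1 k p b r ρ)
    with hR
  have hRG : GG p b r I.card ≤ R := le_sup_left.trans le_sup_left
  -- the sums over all translations
  have hR0 : ∀ (N : Type) [Field N] [Algebra k N] [Algebra (RatFunc k) N]
      [IsScalarTower k (RatFunc k) N] (z : Fin n ⊕ Fin n → Option N), Good p b r I z →
      Submodule.span ℚ {SS p b r 0 z} ≤ R := by
    intro N _ _ _ _ z hz
    refine le_trans ?_ (le_sup_right.trans le_sup_left)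
    refine Submodule.span_mono ?_
    rw [Set.singleton_subset_iff]
    exact ⟨N, _, _, _, inferInstance, z, hz, trivial, rfl⟩
  have hR1 : ∀ ρ : Fin n → ZMod p, ρ ≠ 0 → (∀ i ∉ I, ρ i = 0) →
      SP p b r I ρ (P1 k p b r ρ) ≤ R := by
    intro ρ h1 h2
    refine le_trans ?_ le_sup_right
    exact le_iSup_of_le ρ (le_iSup_of_le h1 (le_iSup_of_le h2 le_rfl))
  -- invariance
  have hInv : ∀ (N : Type) [Field N] [Algebra k N] [Algebra (RatFunc k) N]
      [IsScalarTower k (RatFunc k) N] (z : Fin n ⊕ Fin n → Option N) (ρ : Fin n → ZMod p),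
      Good p b r I z →
      (∀ h : Fin n → ZMod p, key (RatFunc k) (red ρ z) = key (RatFunc k) (red ρ (tr h z))) →
      SS p b r ρ z ∈ R := by
    intro N _ _ _ _ z ρ hz hh
    refine hR0 N z hz (SS_mem_of_inv fun g => ?_)
    exact (hS N N z (tr g z) ρ hz.mem (XV_tr g hz.mem) (hh g)).1
  -- vertical points with `X = B = 0`
  have hE' : ∀ (N : Type) [Field N] [Algebra k N] [Algebra (RatFunc k) N]
      [IsScalarTower k (RatFunc k) N] (z : Fin n ⊕ Fin n → Option N) (ρ : Fin n → ZMod p),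
      Good p b r I z → (∀ i ∉ I, ρ i = 0) → ρ ≠ 0 → Vert k r z → Xc ρ z = 0 → Bc b ρ z = 0 →
      SS p b r ρ z ∈ R := by
    intro N _ _ _ _ z ρ hz hρ hρ0 h1 h2 h3
    refine (sup_le (hR0 N z hz) ?_) (hE N I z ρ hz hρ hρ0 h1 h2 h3)
    refine iSup_le fun c => iSup_le fun hc => hR1 _ (smul_ne_zero hc hρ0) fun i hi => ?_
    rw [Pi.smul_apply, hρ i hi, smul_zero]
  -- points with `X = B = 0`
  have hXB : ∀ (N : Type) [Field N] [Algebra k N] [Algebra (RatFunc k) N]
      [IsScalarTower k (RatFunc k) N] (z : Fin n ⊕ Fin n → Option N) (ρ : Fin n → ZMod p),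
      Good p b r I z → (∀ i ∉ I, ρ i = 0) → ρ ≠ 0 → Xc ρ z = 0 → Bc b ρ z = 0 →
      SS p b r ρ z ∈ R := by
    intro N _ _ _ _ z ρ hz hρ hρ0 h2 h3
    refine (sup_le hRG ?_) ((hV N I z ρ hz hρ hρ0).2 h2 h3)
    unfold SP
    rw [Submodule.span_le]
    rintro _ ⟨N', _, _, _, _, z', hz', ⟨h4, h5, h6⟩, rfl⟩
    exact hE' N' z' ρ hz' hρ hρ0 h4 h5 h6
  -- points with `X = 0`
  have hX : ∀ (N : Type) [Field N] [Algebra k N] [Algebra (RatFunc k) N]
      [IsScalarTower k (RatFunc k) N] (z : Fin n ⊕ Fin n → Option N) (ρ : Fin n → ZMod p),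
      Good p b r I z → (∀ i ∉ I, ρ i = 0) → ρ ≠ 0 → Xc ρ z = 0 → SS p b r ρ z ∈ R := by
    intro N _ _ _ _ z ρ hz hρ hρ0 h2
    by_cases h3 : Bc b ρ z = 0
    · exact hXB N z ρ hz hρ hρ0 h2 h3
    · refine (sup_le hRG ?_) (hSc N I z ρ hz hρ hρ0 h2 h3)
      unfold SP
      rw [Submodule.span_le]
      rintro _ ⟨N', _, _, _, _, z', hz', ⟨h4, h5⟩, rfl⟩
      by_cases h6 : Bc b ρ z' = 0
      · exact hXB N' z' ρ hz' hρ hρ0 h4 h6
      · have h7 := h5.resolve_left h6
        exact hInv N' z' ρ hz' (hA2 N' I z' ρ hz' hρ h7 h4 h6)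
  -- all points
  have hall : ∀ (N : Type) [Field N] [Algebra k N] [Algebra (RatFunc k) N]
      [IsScalarTower k (RatFunc k) N] (z : Fin n ⊕ Fin n → Option N) (ρ : Fin n → ZMod p),
      Good p b r I z → (∀ i ∉ I, ρ i = 0) → ρ ≠ 0 → SS p b r ρ z ∈ R := by
    intro N _ _ _ _ z ρ hz hρ hρ0
    refine (sup_le hRG ?_) (hV N I z ρ hz hρ hρ0).1
    unfold SP
    rw [Submodule.span_le]
    rintro _ ⟨N', _, _, _, _, z', hz', h4, rfl⟩
    by_cases h5 : Xc ρ z' = 0
    · exact hX N' z' ρ hz' hρ hρ0 h5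
    · exact hInv N' z' ρ hz' (hA1 N' I z' ρ hz' hρ h4 h5)
  unfold GI
  rw [Submodule.span_le]
  rintro _ ⟨N, _, _, _, _, z, hz, rfl⟩
  refine (sup_le (hR0 N z hz) ?_) (cl_mem hz)
  refine iSup_le fun ρ => iSup_le fun hρ0 => iSup_le fun hρ => ?_
  rw [Submodule.span_le, Set.singleton_subset_iff]
  exact hall N z ρ hz hρ hρ0

end Pool.Agent.Helper31.KL
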